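import Pool.Agent.R138.Ex7

/-! # MP_e1005d_co: a tangential block with a modular copoint that is not supersolvable -/

namespace Pool.Agent.Results.MP_e1005d_co.NotSupersolvable

open Pool.Agent.Helper236 Pool.Agent.R138

/-- `M` is a tangential `k`-block over the finite field `F`: it is finite, simple and representable
over `F`, its critical exponent is larger than `k`, and every loopless proper minor of `M` has
critical exponent at most `k`. -/
def IsTangentialBlock (F : Type) [Field F] (k : ℕ) {α : Type} (M : Matroid α) : Prop :=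
  M.Finite ∧ IsSimple M ∧ Representable F M ∧ (k : ℕ∞) < critExp M (Nat.card F) ∧
    ∀ N : Matroid α, N.IsMinor M → N ≠ M → (∀ e ∈ N.E, N.IsNonloop e) →
      critExp N (Nat.card F) ≤ k

/-- `M` is supersolvable: there is a chain of modular flats `G 0 ⊆ G 1 ⊆ ... ⊆ G r` with
`r (G i) = i`, where `r` is the rank of `M`. -/
def IsSupersolvable {α : Type} (M : Matroid α) : Prop :=
  ∃ G : ℕ → Set α, (∀ i ≤ rk M M.E, IsModularFlat M (G i) ∧ rk M (G i) = i) ∧
    ∀ i < rk M M.E, G i ⊆ G (i + 1)

/-- There is a tangential `1`-block over `GF(7)`, of rank four and on nineteen points, that has a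
modular copoint but is not supersolvable; indeed none of its flats of rank two is modular. -/
theorem result : ∃ M : Matroid (Fin 19), rk M M.E = 4 ∧ IsTangentialBlock (ZMod 7) 1 M ∧
    (∃ X, IsModularHyperplane M X) ∧ (∀ G, rk M G = 2 → ¬ IsModularFlat M G) ∧
    ¬ IsSupersolvable M := by
  refine ⟨Ex7.Mat, Ex7.Mat_rank_eq,
    ⟨Ex7.Mat_finite, Ex7.Mat_simple, ⟨4, Ex7.pt, Ex7.Mat_rep⟩, Ex7.Mat_critExp_gt, ?_⟩,
    ⟨_, Ex7.Mat_copoint⟩, Ex7.Mat_not_modular_line, ?_⟩
  · intro N hN hne hl
    exact Ex7.Mat_minor hN hne hl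
  · rintro ⟨G, hG, -⟩
    obtain ⟨h3, h4⟩ := hG 2 (by rw [Ex7.Mat_rank_eq]; omega)
    exact Ex7.Mat_not_modular_line (G 2) h4 h3

end Pool.Agent.Results.MP_e1005d_co.NotSupersolvable
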